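import Pool.Agent.W558.WA.Stms
import Pool.Agent.W930.WD.Gin
import Pool.Agent.W417.WD.Po

set_option autoImplicit false

universe u

namespace Pool.Agent.W356.WA

open Pool.Agent.W558 Pool.Agent.W930.WDG

/-- GIN: the initial surface. -/
theorem main : WA_gin.{u} := by
  intro k E _ _ _ _ h2 s G _ g hg f
  by_cases hf0 : f = 0
  · obtain ⟨s', hle, h3⟩ := log_strong k E h2 s G g hg
    obtain ⟨Γ, hΓ⟩ := all_fn k E h2 s' G g hg (by
      intro W hW
      rcases h3 W hW with h4 | h4
      · exact Or.inl h4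
      · exact Or.inr h4.2)
    refine ⟨s', Γ, hΓ, ?_⟩
    intro W hW
    right
    rw [hf0]
    exact W.zero_mem
  · obtain ⟨s', hle, h3⟩ := log_strong k E h2 s (G ⊕ Unit)
      (Sum.elim g (fun _ => f)) (by
        rintro (b | b)
        · exact hg b
        · exact hf0)
    obtain ⟨Γ, hΓ⟩ := all_fn k E h2 s' G g hg (by
      intro W hW
      rcases h3 W hW with h4 | h4
      · exact Or.inl h4
      · exact Or.inr fun b => h4.2 (Sum.inl b))
    refine ⟨s', Γ, hΓ, ?_⟩
    intro W hW
    rcases h3 W hW with h4 | h4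
    · exact Or.inl h4
    · exact Or.inr (h4.2 (Sum.inr ())).1

/-- PO: no poles outside of the boundary. -/
theorem po : WA_po.{u} := by
  intro k E _ _ _ _ h2 s f hCA t O hO
  exact Pool.Agent.W417.WD.po_aux h2 s f hCA t O hO.le

end Pool.Agent.W356.WA
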